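import Mathlib
import Pool.Agent.Lib_helper58.Slab.Main
import Pool.Agent.Lib_helper53.Thick.Final

set_option autoImplicit false

/-!
# MP_75c93e_co: the chromatic number of a thickened plane is seven
-/

namespace Pool.Agent.Results.MP_75c93e_co.ThickenedPlane

open Pool.Agent.Lib_helper58.Slab

/-- **The chromatic number of a thickened plane.** There is a `k ≥ 1` such that for all
sufficiently small `ε > 0` the least number of colours in a colouring of `ℝ² × [0, ε]^k`
in which points at distance `1` get different colours is `7`. -/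
theorem result : ∃ k : ℕ, 1 ≤ k ∧ ∃ ε₀ : ℝ, 0 < ε₀ ∧ ∀ ε : ℝ, 0 < ε → ε < ε₀ →
    IsLeast {m : ℕ | 0 < m ∧ Colourable (slab k ε) m} 7 :=
  main (fun _ _ ha hab => Pool.Agent.Lib_helper53.Thick.interval ha hab)

end Pool.Agent.Results.MP_75c93e_co.ThickenedPlane
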